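import Pool.Agent.Y892.AN.Sc
import Pool.Agent.Y892.AN.Com

/-!
Automorphic loops of prime power order: the commutator subgroup of the multiplication group is a
`p`-group, and every nontrivial normal subloop contains a nontrivial elementary abelian normal
subloop inside the middle nucleus.
-/

set_option autoImplicit false

universe u

namespace Pool.Agent.Results.MP_20a840_al.NormalSubloops

/-- A loop with underlying set `Q`, product `op` and neutral element `e`. -/
structure Loop (Q : Type u) where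
  op : Q → Q → Q
  e : Q
  one_op : ∀ x, op e x = x
  op_one : ∀ x, op x e = x
  bijL : ∀ x, Function.Bijective (fun y => op x y)
  bijR : ∀ x, Function.Bijective (fun y => op y x)

namespace Loop

variable {Q : Type u} (A : Loop Q)

/-- The left translation by `x`. -/
noncomputable def L (x : Q) : Equiv.Perm Q := Equiv.ofBijective _ (A.bijL x)

/-- The right translation by `x`. -/
noncomputable def R (x : Q) : Equiv.Perm Q := Equiv.ofBijective _ (A.bijR x)

/-- The multiplication group, generated by all translations. -/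
def Mlt : Subgroup (Equiv.Perm Q) := Subgroup.closure (Set.range A.L ∪ Set.range A.R)

/-- Every inner mapping (every element of the multiplication group that fixes the neutral
element) is an automorphism. -/
def Automorphic : Prop :=
  ∀ g ∈ A.Mlt, g A.e = A.e → ∀ x y, g (A.op x y) = A.op (g x) (g y)

/-- The middle nucleus. -/
def middleNucleus : Set Q := {a | ∀ x y, A.op (A.op x a) y = A.op x (A.op a y)}

/-- A normal subloop: a set containing the neutral element, closed under the product and under both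
divisions, and mapped into itself by every inner mapping. -/
structure IsNormalSubloop (M : Set Q) : Prop where
  e_mem : A.e ∈ M
  op_mem : ∀ a ∈ M, ∀ b ∈ M, A.op a b ∈ M
  ldiv_mem : ∀ a ∈ M, ∀ b ∈ M, (A.L a).symm b ∈ M
  rdiv_mem : ∀ a ∈ M, ∀ b ∈ M, (A.R a).symm b ∈ M
  inner_mem : ∀ g ∈ A.Mlt, g A.e = A.e → ∀ m ∈ M, g m ∈ M

/-- A minimal normal subloop: a normal subloop with an element different from the neutral element
which contains no smaller one. -/
def IsMinimalNormal (M : Set Q) : Prop :=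
  A.IsNormalSubloop M ∧ (∃ m ∈ M, m ≠ A.e) ∧
    ∀ K : Set Q, A.IsNormalSubloop K → K ⊆ M → (∃ a ∈ K, a ≠ A.e) → K = M

end Loop

open Pool.Agent.H687R3.AL

theorem key {Q : Type u} (A : Loop Q) (hA : A.Automorphic) (P H : Equiv.Perm Q) (hP : P ∈ A.Mlt)
    (hH : H ∈ A.Mlt) (he : P A.e = H A.e) {z₁ z₂ w₁ w₂ : Q} (h1 : P w₁ = H z₁)
    (h2 : P w₂ = H z₂) : P (A.op w₁ w₂) = H (A.op z₁ z₂) := by
  have e0 : (P⁻¹ * H) A.e = A.e := by rw [Equiv.Perm.mul_apply, ← he]; simp
  have e1 : (P⁻¹ * H) z₁ = w₁ := by rw [Equiv.Perm.mul_apply, ← h1]; simp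
  have e2 : (P⁻¹ * H) z₂ = w₂ := by rw [Equiv.Perm.mul_apply, ← h2]; simp
  have h3 := hA _ (A.Mlt.mul_mem (A.Mlt.inv_mem hP) hH) e0 z₁ z₂
  rw [e1, e2] at h3
  rw [← h3]; simp

theorem L_mem {Q : Type u} (A : Loop Q) (x : Q) : A.L x ∈ A.Mlt :=
  Subgroup.subset_closure (Or.inl ⟨x, rfl⟩)

theorem R_mem {Q : Type u} (A : Loop Q) (x : Q) : A.R x ∈ A.Mlt :=
  Subgroup.subset_closure (Or.inr ⟨x, rfl⟩)

/-- transport to a small type -/
def toAL {Q : Type u} (A : Loop Q) (hA : A.Automorphic) {P : Type} (t : Q ≃ P) : AL P where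
  op x y := t (A.op (t.symm x) (t.symm y))
  e := t A.e
  idl x := by rw [t.symm_apply_apply, A.one_op, t.apply_symm_apply]
  idr x := by rw [t.symm_apply_apply, A.op_one, t.apply_symm_apply]
  bijL x := t.bijective.comp ((A.bijL (t.symm x)).comp t.symm.bijective)
  bijR x := t.bijective.comp ((A.bijR (t.symm x)).comp t.symm.bijective)
  autL := by
    intro x y z₁ z₂ w₁ w₂ h1 h2
    have h1' := t.injective h1
    have h2' := t.injective h2
    simp only [t.symm_apply_apply] at h1' h2' ⊢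
    congr 1
    refine key A hA (A.L (A.op (t.symm y) (t.symm x))) (A.L (t.symm y) * A.L (t.symm x))
      (L_mem A _) (A.Mlt.mul_mem (L_mem A _) (L_mem A _)) ?_ h1' h2'
    change A.op (A.op (t.symm y) (t.symm x)) A.e = A.op (t.symm y) (A.op (t.symm x) A.e)
    rw [A.op_one, A.op_one]
  autR := by
    intro x y z₁ z₂ w₁ w₂ h1 h2
    have h1' := t.injective h1
    have h2' := t.injective h2
    simp only [t.symm_apply_apply] at h1' h2' ⊢
    congr 1
    refine key A hA (A.R (A.op (t.symm x) (t.symm y))) (A.R (t.symm y) * A.R (t.symm x))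
      (R_mem A _) (A.Mlt.mul_mem (R_mem A _) (R_mem A _)) ?_ h1' h2'
    change A.op A.e (A.op (t.symm x) (t.symm y)) = A.op (A.op A.e (t.symm x)) (t.symm y)
    rw [A.one_op, A.one_op]
  autT := by
    intro x z₁ z₂ w₁ w₂ h1 h2
    have h1' := t.injective h1
    have h2' := t.injective h2
    simp only [t.symm_apply_apply] at h1' h2' ⊢
    congr 1
    refine key A hA (A.R (t.symm x)) (A.L (t.symm x)) (R_mem A _) (L_mem A _) ?_ h1' h2'
    change A.op A.e (t.symm x) = A.op (t.symm x) A.e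
    rw [A.one_op, A.op_one]

/-- the commutator subgroup of the multiplication group consists of `p`-elements -/
theorem derived {p k : ℕ} (hp : p.Prime) {Q : Type u} (A : Loop Q) (hA : A.Automorphic)
    (hcard : Nat.card Q = p ^ k) : ∀ g ∈ ⁅A.Mlt, A.Mlt⁆, ∃ n, g ^ p ^ n = 1 := by
  have hfin : Finite Q := Nat.finite_of_card_ne_zero (by
    rw [hcard]; exact pow_ne_zero _ hp.ne_zero)
  let t : Q ≃ Fin (Nat.card Q) := Finite.equivFin Q
  let B : AL (Fin (Nat.card Q)) := toAL A hA t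
  let Φ : Equiv.Perm Q →* Equiv.Perm (Fin (Nat.card Q)) := t.permCongrHom.toMonoidHom
  have hΦ : Function.Injective Φ := t.permCongrHom.injective
  have hmap : A.Mlt.map Φ ≤ Pool.Agent.Y892.AN.AMlt B := by
    rw [Subgroup.map_le_iff_le_comap, Loop.Mlt, Subgroup.closure_le]
    rintro _ (⟨x, rfl⟩ | ⟨x, rfl⟩)
    · have e : Φ (A.L x) = B.L (t x) := by
        ext y
        change (t (A.op x (t.symm y)) : ℕ) = t (A.op (t.symm (t x)) (t.symm y))
        rw [t.symm_apply_apply]
      change Φ (A.L x) ∈ Pool.Agent.Y892.AN.AMlt B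
      rw [e]
      exact Pool.Agent.Y892.AN.AL_mem _
    · have e : Φ (A.R x) = B.R (t x) := by
        ext y
        change (t (A.op (t.symm y) x) : ℕ) = t (A.op (t.symm y) (t.symm (t x)))
        rw [t.symm_apply_apply]
      change Φ (A.R x) ∈ Pool.Agent.Y892.AN.AMlt B
      rw [e]
      exact Pool.Agent.Y892.AN.AR_mem _
  intro g hg
  have hg' : Φ g ∈ ⁅Pool.Agent.Y892.AN.AMlt B, Pool.Agent.Y892.AN.AMlt B⁆ := by
    have h1 : Φ g ∈ (⁅A.Mlt, A.Mlt⁆).map Φ := ⟨g, hg, rfl⟩
    rw [Subgroup.map_commutator] at h1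
    exact Subgroup.commutator_mono hmap hmap h1
  obtain ⟨n, hn⟩ := Pool.Agent.Y892.AN.sc hp _ B ⟨k, by rw [Nat.card_fin, hcard]⟩ _ hg'
  refine ⟨n, hΦ ?_⟩
  rw [map_pow, hn, map_one]

/-- the Sylow `p`-subgroups of the multiplication group contain its commutator subgroup -/
theorem sylow {p k : ℕ} (hp : p.Prime) {Q : Type u} (A : Loop Q) (hA : A.Automorphic)
    (hcard : Nat.card Q = p ^ k) (P : Sylow p A.Mlt) : commutator A.Mlt ≤ P := by
  have hC : IsPGroup p (commutator A.Mlt) := by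
    rintro ⟨c, hc⟩
    have h1 : c.1 ∈ ⁅A.Mlt, A.Mlt⁆ := by
      have h2 : A.Mlt.subtype c ∈ (commutator A.Mlt).map A.Mlt.subtype := ⟨c, hc, rfl⟩
      rw [commutator_def, Subgroup.map_commutator, ← MonoidHom.range_eq_map,
        Subgroup.range_subtype] at h2
      exact h2
    obtain ⟨n, hn⟩ := derived hp A hA hcard _ h1
    exact ⟨n, Subtype.ext (Subtype.ext hn)⟩
  have hsup := P.isPGroup'.to_sup_of_normal_right hC
  have h3 := P.is_maximal' hsup le_sup_left
  rw [← h3]
  exact le_sup_right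

/-- elementary abelian normal subloops -/
theorem normal {p k : ℕ} (hp : p.Prime) {Q : Type u} (A : Loop Q) (hA : A.Automorphic)
    (hcard : Nat.card Q = p ^ k) (M : Set Q) (hM : A.IsNormalSubloop M)
    (hne : ∃ m ∈ M, m ≠ A.e) :
    ∃ K : Set Q, A.IsNormalSubloop K ∧ K ⊆ M ∧ (∃ a ∈ K, a ≠ A.e) ∧ K ⊆ A.middleNucleus ∧
      (∀ a ∈ K, ∀ b ∈ K, A.op a b = A.op b a) ∧ (∀ a ∈ K, A.L a ^ p = 1) ∧
      ∀ g ∈ ⁅A.Mlt, A.Mlt⁆, g A.e = A.e → ∀ a ∈ K, g a = a := by
  let i1 : H361AL.Loop Q :=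
    { mul := A.op
      one := A.e
      one_mul' := A.one_op
      mul_one' := A.op_one
      left_div := fun a b => (A.bijL a).existsUnique b
      right_div := fun a b => (A.bijR a).existsUnique b }
  have i2 : H361AL.Automorphic Q := ⟨fun f hf h1 x y => hA f hf h1 x y⟩
  have hfin : Finite Q := Nat.finite_of_card_ne_zero (by
    rw [hcard]; exact pow_ne_zero _ hp.ne_zero)
  have hN : H361AL.NSb M := ⟨hM.e_mem, hM.op_mem, fun a ha => hM.ldiv_mem a ha _ hM.e_mem,
    hM.inner_mem⟩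
  obtain ⟨m, hm, hm1⟩ := hne
  obtain ⟨K, h1, h2, h3, h4, h5, h6, h7⟩ :=
    H361AL.exists_K (Q := Q) hp hcard (derived hp A hA hcard) hN hm hm1
  refine ⟨K, ⟨h1.one, h1.mul, ?_, ?_, h1.st⟩, h2, h3, h4, h5, h6, h7⟩
  · intro a ha b hb
    obtain ⟨t, ht, h8⟩ := h1.blk1 (inv_mem (H361AL.L_mem a)) hb
    have h9 : (H361AL.L a)⁻¹ b ∈ K := by
      rw [h8]
      exact h1.mul _ (h1.inv' a ha) t ht
    exact h9
  · intro a ha b hb
    obtain ⟨t, ht, h8⟩ := h1.blk1 (inv_mem (H361AL.R_mem a)) hb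
    have h9 : (H361AL.R a)⁻¹ b ∈ K := by
      rw [h8]
      refine h1.mul _ ?_ t ht
      have h10 : (H361AL.R a)⁻¹ (1 : Q) = H361AL.iv a := by
        rw [Equiv.Perm.inv_eq_iff_eq, H361AL.R_apply, H361AL.iv_mul]
      rw [h10]
      exact h1.inv' a ha
    exact h9

/-- Let `Q` be an automorphic loop of order `p ^ k`, `p` any prime.
(1) The commutator subgroup of the multiplication group of `Q` is a `p`-group; every Sylow
`p`-subgroup of the multiplication group is normal and contains the commutator subgroup.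
(2) Every normal subloop `M` with an element different from the neutral element contains such a
normal subloop `K` of `Q` which lies in the middle nucleus, is commutative, satisfies
`L_a ^ p = 1` for all `a ∈ K`, and is fixed pointwise by every inner mapping of `Q` in the
commutator subgroup of the multiplication group. In particular `M` meets the middle nucleus
nontrivially.
(3) Hence every minimal normal subloop of `Q` has all the properties of `K` in (2). -/
theorem result (p k : ℕ) (hp : p.Prime) (Q : Type u) (A : Loop Q) (hA : A.Automorphic)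
    (hcard : Nat.card Q = p ^ k) :
    IsPGroup p ↥⁅A.Mlt, A.Mlt⁆ ∧
    (∀ P : Sylow p A.Mlt, (P : Subgroup A.Mlt).Normal ∧ commutator A.Mlt ≤ P) ∧
    (∀ M : Set Q, A.IsNormalSubloop M → (∃ m ∈ M, m ≠ A.e) →
      ∃ K : Set Q, A.IsNormalSubloop K ∧ K ⊆ M ∧ (∃ a ∈ K, a ≠ A.e) ∧ K ⊆ A.middleNucleus ∧
        (∀ a ∈ K, ∀ b ∈ K, A.op a b = A.op b a) ∧ (∀ a ∈ K, A.L a ^ p = 1) ∧
        ∀ g ∈ ⁅A.Mlt, A.Mlt⁆, g A.e = A.e → ∀ a ∈ K, g a = a) ∧
    ∀ M : Set Q, A.IsMinimalNormal M → M ⊆ A.middleNucleus ∧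
      (∀ a ∈ M, ∀ b ∈ M, A.op a b = A.op b a) ∧ (∀ a ∈ M, A.L a ^ p = 1) ∧
      ∀ g ∈ ⁅A.Mlt, A.Mlt⁆, g A.e = A.e → ∀ a ∈ M, g a = a := by
  refine ⟨?_, fun P => ⟨Subgroup.Normal.of_commutator_le _ (sylow hp A hA hcard P),
    sylow hp A hA hcard P⟩, normal hp A hA hcard, ?_⟩
  · rintro ⟨g, hg⟩
    obtain ⟨n, hn⟩ := derived hp A hA hcard g hg
    exact ⟨n, Subtype.ext hn⟩
  · rintro M ⟨hM, hne, hmin⟩
    obtain ⟨K, h1, h2, h3, h4⟩ := normal hp A hA hcard M hM hne
    rw [← hmin K h1 h2 h3]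
    exact h4

end Pool.Agent.Results.MP_20a840_al.NormalSubloops
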